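import Pool.Agent.Helper94.YF.St

/-!
# Project YF (MP_2b6189_al): module DUA, duality
-/

set_option autoImplicit false

namespace Pool.Agent.Helper88.YF

open Pool.Agent.Helper94.YF Matrix ComplexConjugate

private theorem center_Sm {L : ℕ} (g : SL L) : g * (Sm * Sm) = (Sm * Sm) * g := by
  apply Matrix.SpecialLinearGroup.ext
  intro i j
  simp only [Matrix.SpecialLinearGroup.coe_mul, Sm]
  fin_cases i <;> fin_cases j <;> simp [Matrix.mul_apply, Fin.sum_univ_two]

theorem hDUA : StDUA := by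
  intro I _ _ Z
  have hs : Z.rho Sm * (Z.rho Sm)ᴴ = 1 := mul_eq_one_comm.1 (Z.unitary Sm)
  have hs' : ∀ i j, ∑ k, Z.rho Sm i k * conj (Z.rho Sm j k) = if i = j then (1 : ℂ) else 0 := by
    intro i j
    have := congrFun (congrFun hs i) j
    rw [Matrix.mul_apply, Matrix.one_apply] at this
    simpa [Matrix.conjTranspose_apply] using this
  have hsq : ∀ i j, (Z.rho Sm * Z.rho Sm) i j = if i = Z.st j then (1 : ℂ) else 0 := by
    intro i j
    rw [Matrix.mul_apply, ← hs' i (Z.st j)]
    refine Finset.sum_congr rfl fun k _ => ?_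
    rw [Z.s_dual, Complex.conj_conj, Z.s_symm k j]
  have hsym : ∀ i j, (Z.rho Sm * Z.rho Sm) i j = (Z.rho Sm * Z.rho Sm) j i := by
    intro i j
    rw [Matrix.mul_apply, Matrix.mul_apply]
    refine Finset.sum_congr rfl fun k _ => ?_
    rw [Z.s_symm i k, Z.s_symm k j, mul_comm]
  have hstst : ∀ j, Z.st (Z.st j) = j := by
    intro j
    have h := hsym (Z.st j) j
    rw [hsq, hsq, if_pos rfl] at h
    by_contra hne
    rw [if_neg (fun e => hne e.symm)] at h
    exact one_ne_zero h
  have hiff : ∀ i k, i = Z.st k ↔ k = Z.st i := by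
    intro i k
    constructor
    · intro e
      rw [e, hstst]
    · intro e
      rw [e, hstst]
  have hreal : ∀ k, conj (Z.rho Sm Z.o k) = Z.rho Sm Z.o k := by
    intro k
    rw [Z.s_o]
    simp
  have hsto : Z.st Z.o = Z.o := by
    have h1 := hs' (Z.st Z.o) Z.o
    have h2 := hs' Z.o Z.o
    rw [if_pos rfl] at h2
    have h3 : ∑ k, Z.rho Sm (Z.st Z.o) k * conj (Z.rho Sm Z.o k) =
        ∑ k, Z.rho Sm Z.o k * conj (Z.rho Sm Z.o k) := by
      refine Finset.sum_congr rfl fun k _ => ?_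
      rw [Z.s_dual, hreal]
    rw [h3, h2] at h1
    by_contra hne
    rw [if_neg hne] at h1
    exact one_ne_zero h1
  have hd : ∀ i, Z.d (Z.st i) = Z.d i := by
    intro i
    have h : Z.rho Sm Z.o (Z.st i) = Z.rho Sm Z.o i := by
      rw [Z.s_symm Z.o (Z.st i), Z.s_dual, Z.s_symm i Z.o, hreal]
    rw [Z.s_o, Z.s_o] at h
    have hn : (Z.n : ℂ) ≠ 0 := by exact_mod_cast Z.n_pos.ne'
    have h2 : (Z.d (Z.st i) : ℂ) = (Z.d i : ℂ) := by
      field_simp at h
      exact h
    exact_mod_cast h2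
  have hcomm : ∀ (g : SL Z.L) (i j : I), Z.rho g i (Z.st j) = Z.rho g (Z.st i) j := by
    intro g i j
    have h : Z.rho g * (Z.rho Sm * Z.rho Sm) = (Z.rho Sm * Z.rho Sm) * Z.rho g := by
      rw [← map_mul Z.rho Sm Sm, ← map_mul, ← map_mul, center_Sm]
    have h2 := congrFun (congrFun h i) j
    rw [Matrix.mul_apply, Matrix.mul_apply] at h2
    have e1 : ∑ k, Z.rho g i k * (Z.rho Sm * Z.rho Sm) k j = Z.rho g i (Z.st j) := by
      rw [Finset.sum_eq_single (Z.st j)]
      · rw [hsq, if_pos rfl, mul_one]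
      · intro k _ hk
        rw [hsq, if_neg hk, mul_zero]
      · intro hk
        exact absurd (Finset.mem_univ _) hk
    have e2 : ∑ k, (Z.rho Sm * Z.rho Sm) i k * Z.rho g k j = Z.rho g (Z.st i) j := by
      rw [Finset.sum_eq_single (Z.st i)]
      · rw [hsq, if_pos ((hiff _ _).2 rfl), one_mul]
      · intro k _ hk
        rw [hsq, if_neg (fun e => hk ((hiff _ _).1 e)), zero_mul]
      · intro hk
        exact absurd (Finset.mem_univ _) hk
    rw [e1, e2] at h2
    exact h2
  have hg : ∀ (g : SL Z.L) (i j : I), Z.rho g (Z.st i) (Z.st j) = Z.rho g i j := by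
    intro g i j
    rw [← hcomm, hstst]
  refine ⟨hstst, hsto, hd, ?_, ?_, hg⟩
  · intro i
    have h := hg (U 1) i i
    rw [Z.rho_T] at h
    simpa using h
  · intro i
    have h := Z.kap_inv (Sm * Sm) i
    rw [map_mul, Finset.sum_eq_single (Z.st i)] at h
    · rw [hsq, if_pos ((hiff _ _).2 rfl), one_mul] at h
      exact_mod_cast h
    · intro k _ hk
      rw [hsq, if_neg (fun e => hk ((hiff _ _).1 e)), zero_mul]
    · intro hk
      exact absurd (Finset.mem_univ _) hk

end Pool.Agent.Helper88.YF
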